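import Pool.Agent.Lib_helper71.LegLevel.Main

/-!
# Level sets of the Legendre walk modulo an imitating prime
-/

namespace Pool.Agent.Lib_helper71.LegLevel

open Finset Pool.Agent.Lib_helper96.Legendre

section final

variable (p q : ℕ) [Fact p.Prime] [Fact q.Prime]

lemma sum_lg_Psi (j : ℕ) : ∑ i ∈ range (j + 1), lg p i = ((Psi p 0 j : ℤ) : ℂ) := by
  rw [Psi]
  push_cast
  refine sum_congr rfl fun i _ => ?_
  rw [lg, zero_add]
  push_cast
  rfl

lemma tm_mono {i j : ℕ} (h : i ≤ j) : tm p q i ≤ tm p q j := by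
  rw [tm, tm]
  exact Nat.div_le_div_right (Nat.mul_le_mul_left _ h)

lemma walk_step (j m : ℕ) (hj : j < q) (h1 : tm p q j ≤ m) (h2 : m < tm p q (j + 1)) :
    walk q (tm p q) (fun i => lg q i) m = ((Psi q 0 j : ℤ) : ℂ) := by
  rw [walk, ← sum_lg_Psi q j, ← sum_filter]
  refine sum_congr ?_ fun _ _ => rfl
  ext i
  rw [mem_filter, mem_range, mem_range]
  constructor
  · rintro ⟨_, h3⟩
    by_contra h4
    have := tm_mono p q (show j + 1 ≤ i by omega)
    omega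
  · intro h3
    exact ⟨by omega, (tm_mono p q (show i ≤ j by omega)).trans h1⟩

lemma walk_id (m : ℕ) (hm : m < p) :
    walk p id (fun i => lg p i) m = ((Psi p 0 m : ℤ) : ℂ) := by
  rw [walk, ← sum_lg_Psi p m, ← sum_filter]
  refine sum_congr ?_ fun _ _ => rfl
  ext i
  rw [mem_filter, mem_range, mem_range, id]
  omega

lemma tm_step (j : ℕ) (hpq : 2 * q ≤ p) : p ≤ 2 * q * (tm p q (j + 1) - tm p q j) := by
  have hq : 0 < q := (Fact.out : q.Prime).pos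
  have h1 : p * j / q + p / q ≤ p * (j + 1) / q := by
    rw [mul_add, mul_one]
    exact Nat.div_add_div_le_add_div ..
  have h2 : p / q ≤ tm p q (j + 1) - tm p q j := by
    rw [tm, tm]; omega
  have h3 : p < q * (p / q + 1) := Nat.lt_mul_div_succ p hq
  have h4 : 2 ≤ p / q := by
    rw [Nat.le_div_iff_mul_le hq]; exact hpq
  calc p ≤ q * (p / q + 1) := h3.le
    _ ≤ q * (2 * (p / q)) := Nat.mul_le_mul_left _ (by omega)
    _ = 2 * q * (p / q) := by ring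
    _ ≤ 2 * q * (tm p q (j + 1) - tm p q j) := Nat.mul_le_mul_left _ h2

theorem final_bound (hp : p ≠ 2) (hq : q ≠ 2) (y : ℕ) (hy : 8 * q ^ 2 ≤ y) (hpq : 20 * q ^ 3 ≤ p)
    (him : ∀ z : ℤ, z.natAbs ≤ y → ¬ (q : ℤ) ∣ z →
      quadraticChar (ZMod p) (z : ZMod p) = quadraticChar (ZMod q) (z : ZMod q)) :
    q * p ^ 2 ≤ (24 * M p) ^ 4 := by
  classical
  have hpp : 0 < p := (Fact.out : p.Prime).pos
  have hqq : 0 < q := (Fact.out : q.Prime).pos
  have hq2 : 2 ≤ q := (Fact.out : q.Prime).two_le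
  have hpr : (0 : ℝ) < p := by exact_mod_cast hpp
  have hqr : (0 : ℝ) < q := by exact_mod_cast hqq
  have h2qp : 2 * q ≤ p := by
    have : q * 1 ≤ q * q ^ 2 := Nat.mul_le_mul_left _ (Nat.one_le_pow _ _ hqq)
    have : q ^ 3 = q * q ^ 2 := by ring
    nlinarith
  have hqqp : q * q ≤ p := by
    have : q * q * 1 ≤ q * q * q := Nat.mul_le_mul_left _ hqq
    have : q ^ 3 = q * q * q := by ring
    nlinarith
  -- a big level of `q`
  obtain ⟨h0, hh0⟩ : ∃ h0 : ℤ, q < (level q h0) ^ 2 := by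
    by_contra hcon
    push Not at hcon
    have h1 : ∀ h : ℤ, level q h ≤ Nat.sqrt q := fun h => Nat.le_sqrt'.2 (hcon h)
    have h2 := main_bound q hq (Nat.sqrt q) h1
    have h3 := Nat.sqrt_le' q
    omega
  set L := level q h0 with hL
  have hLq : L ≤ q := level_le q h0
  have hL0 : 0 < L := by
    rcases Nat.eq_zero_or_pos L with h | h
    · rw [h] at hh0; simp at hh0
    · exact h
  have hLr : (0 : ℝ) < L := by exact_mod_cast hL0
  obtain ⟨μ, hμ⟩ := imitation p q hp hq y hy hpq him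
  -- the set of times
  set J : Finset ℕ := (range q).filter (fun j => Psi q 0 j = h0) with hJ
  have hJL : J.card = L := rfl
  set T : Finset ℕ := J.biUnion (fun j => Ico (tm p q j) (tm p q (j + 1))) with hT
  have hTsub : T ⊆ range p := by
    intro m hm
    rw [hT, mem_biUnion] at hm
    obtain ⟨j, hj, hm⟩ := hm
    rw [hJ, mem_filter, mem_range] at hj
    rw [mem_Ico] at hm
    rw [mem_range]
    exact lt_of_lt_of_le hm.2 (tm_le p q (j + 1) hj.1)
  have hTcard : L * p ≤ 2 * q * T.card := by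
    rw [hT, card_biUnion, ← hJL, mul_sum, card_eq_sum_ones, sum_mul]
    · refine sum_le_sum fun j _ => ?_
      rw [one_mul, Nat.card_Ico]
      exact tm_step p q j h2qp
    · intro i _ j _ hij
      rw [Function.onFun, Finset.disjoint_left]
      intro m h1 h2
      rw [mem_Ico] at h1 h2
      rcases lt_or_gt_of_ne hij with h | h
      · have := tm_mono p q (show i + 1 ≤ j by omega)
        omega
      · have := tm_mono p q (show j + 1 ≤ i by omega)
        omega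
  -- real centre
  set r : ℝ := (tau p / tau q * ((h0 : ℤ) : ℂ) + μ).re with hr
  have hval : ∀ m ∈ T, ((Psi p 0 m : ℝ) - r) ^ 2 ≤ ‖Hd p q m - μ‖ ^ 2 := by
    intro m hm
    have hmp := mem_range.1 (hTsub hm)
    rw [hT, mem_biUnion] at hm
    obtain ⟨j, hj, hm⟩ := hm
    rw [hJ, mem_filter, mem_range] at hj
    rw [mem_Ico] at hm
    have h1 : Hd p q m = ((Psi p 0 m : ℤ) : ℂ) - tau p / tau q * ((h0 : ℤ) : ℂ) := by
      rw [Hd, walk_id p m hmp, walk_step p q j m hj.1 hm.1 hm.2, hj.2]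
    have h2 : (Psi p 0 m : ℝ) - r = (Hd p q m - μ).re := by
      rw [h1, hr]
      simp only [Complex.sub_re, Complex.add_re, Complex.intCast_re]
      ring
    rw [h2, ← sq_abs]
    exact pow_le_pow_left₀ (abs_nonneg _) (Complex.abs_re_le_norm _) 2
  have hsumT : ∑ m ∈ T, ((Psi p 0 m : ℝ) - r) ^ 2 ≤ (p : ℝ) ^ 2 / (q : ℝ) ^ 2 := by
    refine (sum_le_sum hval).trans ?_
    exact (sum_le_sum_of_subset_of_nonneg hTsub (fun _ _ _ => by positivity)).trans hμ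
  -- the radius
  set ρ : ℝ := Real.sqrt (4 * p / (q * L)) with hρ
  have hρ2 : ρ ^ 2 = 4 * p / (q * L) := Real.sq_sqrt (by positivity)
  have hρ1 : 1 ≤ ρ := by
    rw [hρ]
    apply Real.one_le_sqrt.2
    rw [le_div_iff₀ (by positivity), one_mul]
    have : q * L ≤ p := (Nat.mul_le_mul_left _ hLq).trans hqqp
    have h3 : (q : ℝ) * L ≤ p := by exact_mod_cast this
    linarith
  set B : Finset ℕ := T.filter (fun m => ρ < |(Psi p 0 m : ℝ) - r|) with hB
  set G : Finset ℕ := T.filter (fun m => ¬ ρ < |(Psi p 0 m : ℝ) - r|) with hG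
  have hBG : B.card + G.card = T.card := by
    rw [hB, hG]
    exact card_filter_add_card_filter_not _
  have hBc : (B.card : ℝ) * ρ ^ 2 ≤ (p : ℝ) ^ 2 / (q : ℝ) ^ 2 := by
    refine le_trans ?_ hsumT
    calc (B.card : ℝ) * ρ ^ 2 = ∑ m ∈ B, ρ ^ 2 := by rw [sum_const, nsmul_eq_mul]
      _ ≤ ∑ m ∈ B, ((Psi p 0 m : ℝ) - r) ^ 2 := by
          refine sum_le_sum fun m hm => ?_
          rw [hB, mem_filter] at hm
          rw [← sq_abs ((Psi p 0 m : ℝ) - r)]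
          exact pow_le_pow_left₀ (by linarith) hm.2.le 2
      _ ≤ ∑ m ∈ T, ((Psi p 0 m : ℝ) - r) ^ 2 :=
          sum_le_sum_of_subset_of_nonneg (filter_subset _ _) (fun _ _ _ => by positivity)
  have hBc2 : 4 * q * (B.card : ℝ) ≤ p * L := by
    rw [hρ2] at hBc
    have h1 : (B.card : ℝ) * (4 * p / (q * L)) * ((q : ℝ) ^ 2 * L / p) ≤
        (p : ℝ) ^ 2 / (q : ℝ) ^ 2 * ((q : ℝ) ^ 2 * L / p) :=
      mul_le_mul_of_nonneg_right hBc (by positivity)
    have h2 : (B.card : ℝ) * (4 * p / (q * L)) * ((q : ℝ) ^ 2 * L / p) = 4 * q * B.card := by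
      field_simp
    have h3 : (p : ℝ) ^ 2 / (q : ℝ) ^ 2 * ((q : ℝ) ^ 2 * L / p) = p * L := by
      field_simp
    rw [h2, h3] at h1
    exact h1
  have hGc : (p : ℝ) * L ≤ 4 * q * G.card := by
    have h1 : (L : ℝ) * p ≤ 2 * q * T.card := by exact_mod_cast hTcard
    have h2 : (B.card : ℝ) + G.card = T.card := by exact_mod_cast hBG
    rw [← h2] at h1
    nlinarith
  -- values on `G`
  have hmaps : ∀ m ∈ G, Psi p 0 m ∈ Icc ⌈r - ρ⌉ ⌊r + ρ⌋ := by
    intro m hm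
    rw [hG, mem_filter, not_lt, abs_le] at hm
    rw [mem_Icc, Int.ceil_le, Int.le_floor]
    constructor <;> linarith [hm.2.1, hm.2.2]
  have hfib : ∀ v ∈ Icc ⌈r - ρ⌉ ⌊r + ρ⌋, (G.filter (fun m => Psi p 0 m = v)).card ≤ M p := by
    intro v _
    refine le_trans ?_ (level_le_M p v)
    rw [level]
    apply card_le_card
    exact filter_subset_filter _ ((filter_subset _ _).trans hTsub)
  have hcount := card_le_mul_card_image_of_maps_to hmaps (M p) hfib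
  have hIcc : ((Icc ⌈r - ρ⌉ ⌊r + ρ⌋).card : ℝ) ≤ 3 * ρ := by
    rw [Int.card_Icc]
    have h1 : (((⌊r + ρ⌋ + 1 - ⌈r - ρ⌉).toNat : ℤ) : ℝ) ≤ 3 * ρ := by
      rw [Int.toNat_eq_max]
      push_cast
      apply max_le
      · have := Int.floor_le (r + ρ)
        have := Int.le_ceil (r - ρ)
        linarith
      · linarith
    exact_mod_cast h1
  have hc2 : (G.card : ℝ) ≤ M p * (3 * ρ) := by
    have h1 : (G.card : ℝ) ≤ (M p : ℝ) * ((Icc ⌈r - ρ⌉ ⌊r + ρ⌋).card : ℝ) := by exact_mod_cast hcount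
    exact h1.trans (mul_le_mul_of_nonneg_left hIcc (Nat.cast_nonneg _))
  have hfin : (p : ℝ) * L ≤ 12 * q * M p * ρ := by
    calc (p : ℝ) * L ≤ 4 * q * G.card := hGc
      _ ≤ 4 * q * (M p * (3 * ρ)) := mul_le_mul_of_nonneg_left hc2 (by positivity)
      _ = 12 * q * M p * ρ := by ring
  have hsq : ((p : ℝ) * L) ^ 2 ≤ (12 * q * M p * ρ) ^ 2 :=
    pow_le_pow_left₀ (by positivity) hfin 2
  have hsq2 : (p : ℝ) * L ^ 3 ≤ 576 * q * (M p : ℝ) ^ 2 := by
    have h1 : (12 * (q : ℝ) * M p * ρ) ^ 2 = 144 * q ^ 2 * (M p : ℝ) ^ 2 * ρ ^ 2 := by ring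
    rw [h1, hρ2] at hsq
    have h2 : ((p : ℝ) * L) ^ 2 * (L / p) ≤
        144 * (q : ℝ) ^ 2 * (M p : ℝ) ^ 2 * (4 * p / (q * L)) * (L / p) :=
      mul_le_mul_of_nonneg_right hsq (by positivity)
    have h3 : ((p : ℝ) * L) ^ 2 * (L / p) = p * L ^ 3 := by
      field_simp
    have h4 : 144 * (q : ℝ) ^ 2 * (M p : ℝ) ^ 2 * (4 * p / (q * L)) * (L / p) =
        576 * q * (M p : ℝ) ^ 2 := by
      field_simp
      ring
    rw [h3, h4] at h2
    exact h2
  have hnat : p * L ^ 3 ≤ 576 * q * (M p) ^ 2 := by exact_mod_cast hsq2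
  have hnat2 : (p * L ^ 3) ^ 2 ≤ (576 * q * (M p) ^ 2) ^ 2 := Nat.pow_le_pow_left hnat 2
  have hL6 : q ^ 3 ≤ L ^ 6 := by
    calc q ^ 3 ≤ (L ^ 2) ^ 3 := Nat.pow_le_pow_left hh0.le 3
      _ = L ^ 6 := by ring
  have hlast : q ^ 2 * (q * p ^ 2) ≤ q ^ 2 * (24 * M p) ^ 4 := by
    calc q ^ 2 * (q * p ^ 2) = p ^ 2 * q ^ 3 := by ring
      _ ≤ p ^ 2 * L ^ 6 := Nat.mul_le_mul_left _ hL6
      _ = (p * L ^ 3) ^ 2 := by ring
      _ ≤ (576 * q * (M p) ^ 2) ^ 2 := hnat2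
      _ = q ^ 2 * (24 * M p) ^ 4 := by ring
  exact Nat.le_of_mul_le_mul_left hlast (by positivity)

end final

/-- for every odd prime `q` there are arbitrarily large primes `p` with `(24 M_p)^4 ≥ q p²` -/
theorem exists_large (q : ℕ) (hq : q.Prime) (hq2 : q ≠ 2) (N : ℕ) :
    ∃ (p : ℕ) (hp : Fact p.Prime), N < p ∧ p ≠ 2 ∧ q * p ^ 2 ≤ (24 * M p) ^ 4 := by
  haveI := Fact.mk hq
  obtain ⟨p, hpN, hp, hp2, him⟩ := exists_imitator q hq2 (8 * q ^ 2) (N + 20 * q ^ 3)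
  haveI := Fact.mk hp
  exact ⟨p, ⟨hp⟩, by omega, hp2, final_bound p q hp2 hq2 (8 * q ^ 2) le_rfl (by omega) him⟩

/-- `M_p / √p` is unbounded -/
theorem unbounded (B : ℝ) (N : ℕ) :
    ∃ (p : ℕ) (hp : Fact p.Prime), N < p ∧ p ≠ 2 ∧ B * Real.sqrt p < M p := by
  obtain ⟨q, hqB, hq⟩ := Nat.exists_infinite_primes (⌈(24 * max B 0) ^ 4⌉₊ + 3)
  obtain ⟨p, hp, hpN, hp2, hb⟩ := exists_large q hq (by omega) N
  refine ⟨p, hp, hpN, hp2, ?_⟩
  have hp0 : (0 : ℝ) < p := by exact_mod_cast hp.out.pos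
  have h1 : ((24 : ℝ) * max B 0) ^ 4 < q := by
    have h2 : (24 * max B 0) ^ 4 ≤ (⌈(24 * max B 0) ^ 4⌉₊ : ℝ) := Nat.le_ceil _
    have h3 : ((⌈(24 * max B 0) ^ 4⌉₊ : ℕ) : ℝ) + 3 ≤ q := by exact_mod_cast hqB
    linarith
  have h2 : (q : ℝ) * (p : ℝ) ^ 2 ≤ (24 * (M p : ℝ)) ^ 4 := by exact_mod_cast hb
  have h3 : (24 * (max B 0 * Real.sqrt p)) ^ 4 < (24 * (M p : ℝ)) ^ 4 := by
    calc (24 * (max B 0 * Real.sqrt p)) ^ 4 = (24 * max B 0) ^ 4 * (Real.sqrt p ^ 2) ^ 2 := by ring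
      _ = (24 * max B 0) ^ 4 * (p : ℝ) ^ 2 := by rw [Real.sq_sqrt hp0.le]
      _ < q * (p : ℝ) ^ 2 := mul_lt_mul_of_pos_right h1 (by positivity)
      _ ≤ (24 * (M p : ℝ)) ^ 4 := h2
  have h4 : 24 * (max B 0 * Real.sqrt p) < 24 * (M p : ℝ) :=
    lt_of_pow_lt_pow_left₀ 4 (by positivity) h3
  have h5 : B * Real.sqrt p ≤ max B 0 * Real.sqrt p :=
    mul_le_mul_of_nonneg_right (le_max_left _ _) (Real.sqrt_nonneg _)
  linarith

end Pool.Agent.Lib_helper71.LegLevel
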