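import Mathlib

/-!
# Finite Fourier analysis on `ℤ/p`: exponentials, Parseval, Gauss sums, walks
-/

namespace Pool.Agent.Lib_helper71.LegLevel

open Finset

/-- `exp (2 π i z / N)` -/
noncomputable def E (N : ℕ) (z : ℤ) : ℂ := Complex.exp (Complex.I * ((2 * Real.pi * (z / N) : ℝ) : ℂ))

lemma E_eq (N : ℕ) [NeZero N] (z : ℤ) : E N z = ZMod.stdAddChar (N := N) (z : ZMod N) := by
  rw [ZMod.stdAddChar_coe, E]
  congr 1
  push_cast
  ring

lemma E_zero (N : ℕ) : E N 0 = 1 := by simp [E]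

lemma E_add (N : ℕ) (a b : ℤ) : E N (a + b) = E N a * E N b := by
  rw [E, E, E, ← Complex.exp_add]
  congr 1
  push_cast
  ring

lemma E_pow (N : ℕ) (a : ℤ) (k : ℕ) : E N a ^ k = E N (a * k) := by
  induction k with
  | zero => simp [E_zero]
  | succ k ih =>
    rw [pow_succ, ih, ← E_add]
    congr 1
    push_cast
    ring

lemma E_norm (N : ℕ) (a : ℤ) : ‖E N a‖ = 1 := by
  rw [E, mul_comm]
  exact Complex.norm_exp_ofReal_mul_I _

lemma E_conj (N : ℕ) (a : ℤ) : (starRingEnd ℂ) (E N a) = E N (-a) := by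
  rw [E, E, ← Complex.exp_conj, map_mul, Complex.conj_I, Complex.conj_ofReal]
  congr 1
  push_cast
  ring

lemma E_add_mul (N : ℕ) (hN : N ≠ 0) (a k : ℤ) : E N (a + N * k) = E N a := by
  haveI : NeZero N := ⟨hN⟩
  rw [E_eq, E_eq]
  congr 1
  push_cast
  simp

lemma E_mul_self (N : ℕ) (hN : N ≠ 0) (a : ℤ) : E N (a * N) = 1 := by
  have := E_add_mul N hN 0 a
  rw [zero_add, E_zero] at this
  rw [mul_comm]
  exact this

lemma norm_exp_sub_exp (x y : ℝ) :
    ‖Complex.exp (Complex.I * (x : ℂ)) - Complex.exp (Complex.I * (y : ℂ))‖ ≤ |x - y| := by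
  have h : Complex.exp (Complex.I * (x : ℂ)) - Complex.exp (Complex.I * (y : ℂ)) =
      Complex.exp (Complex.I * (y : ℂ)) * (Complex.exp (Complex.I * ((x - y : ℝ) : ℂ)) - 1) := by
    rw [mul_sub, ← Complex.exp_add, mul_one]
    congr 2
    push_cast
    ring
  rw [h, norm_mul]
  have h1 : ‖Complex.exp (Complex.I * (y : ℂ))‖ = 1 := by
    rw [mul_comm]; exact Complex.norm_exp_ofReal_mul_I _
  rw [h1, one_mul]
  exact Real.norm_exp_I_mul_ofReal_sub_one_le

lemma E_sub_E (p q : ℕ) (a b : ℤ) : ‖E p a - E q b‖ ≤ 2 * Real.pi * |(a : ℝ) / p - b / q| := by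
  rw [E, E]
  refine (norm_exp_sub_exp _ _).trans ?_
  rw [← mul_sub, abs_mul, abs_of_nonneg (by positivity : (0 : ℝ) ≤ 2 * Real.pi)]

lemma one_sub_E (p : ℕ) (hp : 0 < p) (z : ℤ) (hz : 2 * z.natAbs ≤ p) :
    4 * (z.natAbs : ℝ) / p ≤ ‖1 - E p z‖ := by
  have hpr : (0 : ℝ) < p := by exact_mod_cast hp
  rw [← norm_neg, neg_sub, E, Complex.norm_exp_I_mul_ofReal_sub_one, norm_mul]
  have h2 : ‖(2 : ℝ)‖ = 2 := by norm_num
  rw [h2]
  have key : ∀ x : ℝ, 0 ≤ x → x ≤ 1 / 2 → 2 * x ≤ |Real.sin (Real.pi * x)| := by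
    intro x hx0 hx1
    have := Real.mul_le_sin (x := Real.pi * x) (by positivity)
      (by nlinarith [Real.pi_pos])
    have h3 : 2 / Real.pi * (Real.pi * x) = 2 * x := by
      field_simp
    rw [h3] at this
    exact this.trans (le_abs_self _)
  have habs : |(z : ℝ)| = (z.natAbs : ℝ) := by
    rw [Nat.cast_natAbs]; push_cast; rfl
  have hx := key (|(z : ℝ)| / p) (by positivity) (by
    rw [habs, div_le_iff₀ hpr]
    have : (2 * (z.natAbs : ℝ)) ≤ p := by exact_mod_cast hz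
    linarith)
  have hs : |Real.sin (Real.pi * (|(z : ℝ)| / p))| = ‖Real.sin (2 * Real.pi * ((z : ℝ) / p) / 2)‖ := by
    rw [Real.norm_eq_abs]
    rcases abs_cases (z : ℝ) with h | h
    · rw [h.1]; congr 2; ring
    · rw [h.1, ← abs_neg, ← Real.sin_neg]; congr 2; ring
  rw [← hs]
  calc 4 * (z.natAbs : ℝ) / p = 2 * (2 * (|(z : ℝ)| / p)) := by rw [habs]; ring
    _ ≤ 2 * |Real.sin (Real.pi * (|(z : ℝ)| / p))| := by linarith

lemma sum_range_zmod (p : ℕ) [NeZero p] (f : ZMod p → ℂ) :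
    ∑ n ∈ range p, f (n : ZMod p) = ∑ x : ZMod p, f x := by
  refine Finset.sum_bij' (fun n _ => (n : ZMod p)) (fun x _ => x.val) ?_ ?_ ?_ ?_ ?_
  · intro n _; exact mem_univ _
  · intro x _; exact mem_range.2 (ZMod.val_lt x)
  · intro n hn; exact ZMod.val_cast_of_lt (mem_range.1 hn)
  · intro x _; exact ZMod.natCast_zmod_val x
  · intro n _; rfl

lemma orth (p : ℕ) [Fact p.Prime] (z : ℤ) :
    ∑ n ∈ range p, E p (n * z) = if (p : ℤ) ∣ z then (p : ℂ) else 0 := by
  have h := sum_range_zmod p (fun x => ZMod.stdAddChar (N := p) (x * (z : ZMod p)))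
  have h2 : ∀ n ∈ range p, E p (n * z) = ZMod.stdAddChar (N := p) (((n : ZMod p)) * (z : ZMod p)) := by
    intro n _
    rw [E_eq]
    congr 1
    push_cast
    rfl
  rw [sum_congr rfl h2, h, AddChar.sum_mulShift _ (ZMod.isPrimitive_stdAddChar p), ZMod.card]
  by_cases hz : (p : ℤ) ∣ z
  · rw [if_pos hz, if_pos ((ZMod.intCast_zmod_eq_zero_iff_dvd z p).2 hz)]
  · rw [if_neg hz, if_neg (fun h => hz ((ZMod.intCast_zmod_eq_zero_iff_dvd z p).1 h))]
    simp

/-- the transform of `K` at frequency `z` -/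
noncomputable def hat (p : ℕ) (K : ℕ → ℂ) (z : ℤ) : ℂ := ∑ m ∈ range p, K m * E p z ^ m

lemma parseval (p : ℕ) [Fact p.Prime] (K : ℕ → ℂ) :
    ∑ n ∈ range p, ‖hat p K n‖ ^ 2 = p * ∑ m ∈ range p, ‖K m‖ ^ 2 := by
  have hc : ((∑ n ∈ range p, ‖hat p K n‖ ^ 2 : ℝ) : ℂ) = ((p * ∑ m ∈ range p, ‖K m‖ ^ 2 : ℝ) : ℂ) := by
    push_cast
    have h1 : ∀ n ∈ range p, ((‖hat p K n‖ : ℂ)) ^ 2 =
        ∑ m ∈ range p, ∑ m' ∈ range p, K m * (starRingEnd ℂ) (K m') * E p (n * ((m : ℤ) - m')) := by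
      intro n _
      rw [← Complex.mul_conj', hat, map_sum, sum_mul_sum]
      refine sum_congr rfl fun m _ => sum_congr rfl fun m' _ => ?_
      rw [map_mul, E_pow, E_pow, E_conj]
      have : E p (n * ((m : ℤ) - m')) = E p (n * m) * E p (-(n * m')) := by
        rw [← E_add]; congr 1; ring
      rw [this]; ring
    rw [sum_congr rfl h1, sum_comm]
    have h2 : ∀ m ∈ range p, (∑ n ∈ range p, ∑ m' ∈ range p,
        K m * (starRingEnd ℂ) (K m') * E p (n * ((m : ℤ) - m'))) = p * (‖K m‖ : ℂ) ^ 2 := by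
      intro m hm
      rw [sum_comm]
      have h3 : ∀ m' ∈ range p, (∑ n ∈ range p,
          K m * (starRingEnd ℂ) (K m') * E p (n * ((m : ℤ) - m'))) =
          if m' = m then p * (‖K m‖ : ℂ) ^ 2 else 0 := by
        intro m' hm'
        rw [← mul_sum, orth]
        by_cases h : m' = m
        · subst h
          rw [if_pos rfl, sub_self, if_pos (dvd_zero _), Complex.mul_conj']
          ring
        · rw [if_neg h, if_neg, mul_zero]
          intro hd
          apply h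
          have h1 := mem_range.1 hm
          have h2 := mem_range.1 hm'
          have : (m : ℤ) - m' = 0 := Int.eq_zero_of_abs_lt_dvd hd (by rw [abs_lt]; constructor <;> omega)
          omega
      rw [sum_congr rfl h3, sum_ite_eq' (range p) m, if_pos hm]
    rw [sum_congr rfl h2, mul_sum]
  exact_mod_cast hc

lemma hat_periodic (p : ℕ) (hp : p ≠ 0) (K : ℕ → ℂ) (z k : ℤ) : hat p K (z + p * k) = hat p K z := by
  rw [hat, hat, E_add_mul p hp]

/-- walk with jumps `c j` at the times `τ j` -/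
noncomputable def walk (Q : ℕ) (τ : ℕ → ℕ) (c : ℕ → ℂ) (m : ℕ) : ℂ :=
  ∑ j ∈ range Q, if τ j ≤ m then c j else 0

lemma hat_walk (p Q : ℕ) (hp : p ≠ 0) (τ : ℕ → ℕ) (c : ℕ → ℂ) (hτ : ∀ j, j < Q → τ j ≤ p)
    (hc : ∑ j ∈ range Q, c j = 0) (z : ℤ) :
    (1 - E p z) * hat p (walk Q τ c) z = ∑ j ∈ range Q, c j * E p z ^ τ j := by
  set w := E p z with hw
  have hwp : w ^ p = 1 := by rw [hw, E_pow, E_mul_self p hp]
  have h1 : hat p (walk Q τ c) z = ∑ j ∈ range Q, c j * ∑ m ∈ Ico (τ j) p, w ^ m := by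
    rw [hat]
    simp only [walk, sum_mul]
    rw [sum_comm]
    refine sum_congr rfl fun j hj => ?_
    rw [mul_sum]
    have : Ico (τ j) p = (range p).filter (fun m => τ j ≤ m) := by
      ext m; simp only [mem_Ico, mem_filter, mem_range]; tauto
    rw [this, sum_filter]
    refine sum_congr rfl fun m _ => ?_
    split_ifs <;> simp [hw]
  rw [h1, mul_sum]
  have h2 : ∀ j ∈ range Q, (1 - w) * (c j * ∑ m ∈ Ico (τ j) p, w ^ m) = c j * w ^ τ j - c j := by
    intro j hj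
    have h3 := geom_sum_Ico_mul w (hτ j (mem_range.1 hj))
    rw [hwp] at h3
    have : (1 - w) * (c j * ∑ m ∈ Ico (τ j) p, w ^ m) =
        - (c j * ((∑ m ∈ Ico (τ j) p, w ^ m) * (w - 1))) := by ring
    rw [this, h3]; ring
  rw [sum_congr rfl h2, sum_sub_distrib, hc, sub_zero]

/-- the Legendre symbol as a complex number -/
noncomputable def lg (p : ℕ) [Fact p.Prime] (z : ℤ) : ℂ := ((quadraticChar (ZMod p) (z : ZMod p) : ℤ) : ℂ)

/-- the Gauss sum -/
noncomputable def tau (p : ℕ) [Fact p.Prime] : ℂ := ∑ j ∈ range p, lg p j * E p 1 ^ j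

noncomputable def chiC (p : ℕ) [Fact p.Prime] : MulChar (ZMod p) ℂ :=
  (quadraticChar (ZMod p)).ringHomComp (Int.castRingHom ℂ)

lemma chiC_apply (p : ℕ) [Fact p.Prime] (x : ZMod p) :
    chiC p x = ((quadraticChar (ZMod p) x : ℤ) : ℂ) := rfl

lemma sum_gauss (p : ℕ) [Fact p.Prime] (z : ℤ) :
    ∑ j ∈ range p, lg p j * E p z ^ j =
      gaussSum (chiC p) ((ZMod.stdAddChar (N := p)).mulShift (z : ZMod p)) := by
  rw [gaussSum, ← sum_range_zmod]
  refine sum_congr rfl fun j _ => ?_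
  rw [chiC_apply, AddChar.mulShift_apply, E_pow, E_eq, lg]
  push_cast
  rfl

lemma tau_eq (p : ℕ) [Fact p.Prime] : tau p = gaussSum (chiC p) (ZMod.stdAddChar (N := p)) := by
  rw [tau, sum_gauss]
  congr 1
  ext x
  rw [AddChar.mulShift_apply]
  simp

lemma sum_lg (p : ℕ) [Fact p.Prime] (hp : p ≠ 2) : ∑ j ∈ range p, lg p j = 0 := by
  have h := sum_range_zmod p (fun x => ((quadraticChar (ZMod p) x : ℤ) : ℂ))
  have h2 : ∑ j ∈ range p, lg p j = ∑ n ∈ range p, ((quadraticChar (ZMod p) (n : ZMod p) : ℤ) : ℂ) := by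
    refine sum_congr rfl fun j _ => ?_
    rw [lg]; push_cast; rfl
  rw [h2, h, ← Int.cast_sum, quadraticChar_sum_zero (by rw [ZMod.ringChar_zmod_n]; exact hp)]
  simp

lemma sum_lg_E (p : ℕ) [Fact p.Prime] (hp : p ≠ 2) (z : ℤ) :
    ∑ j ∈ range p, lg p j * E p z ^ j = lg p z * tau p := by
  by_cases hz : (z : ZMod p) = 0
  · have h1 : E p z = 1 := by
      have := (ZMod.intCast_zmod_eq_zero_iff_dvd z p).1 hz
      obtain ⟨k, hk⟩ := this
      rw [hk, mul_comm]
      exact E_mul_self p (Fact.out : p.Prime).ne_zero k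
    rw [h1]
    simp only [one_pow, mul_one]
    rw [sum_lg p hp, lg, hz]
    simp
  · rw [sum_gauss, tau_eq, lg]
    have hu : IsUnit (z : ZMod p) := isUnit_iff_ne_zero.2 hz
    have h := gaussSum_mulShift (chiC p) (ZMod.stdAddChar (N := p)) hu.unit
    rw [IsUnit.unit_spec] at h
    rw [← h, ← mul_assoc, ← chiC_apply]
    have h2 : chiC p (z : ZMod p) * chiC p (z : ZMod p) = 1 := by
      rw [chiC_apply, ← Int.cast_mul, ← sq, quadraticChar_sq_one hz]
      simp
    rw [h2, one_mul]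

lemma norm_tau (p : ℕ) [Fact p.Prime] (hp : p ≠ 2) : ‖tau p‖ ^ 2 = p := by
  have hr : ringChar (ZMod p) ≠ 2 := by rw [ZMod.ringChar_zmod_n]; exact hp
  have h1 : chiC p ≠ 1 := by
    intro h
    obtain ⟨a, ha⟩ := quadraticChar_exists_neg_one hr
    have ha0 : a ≠ 0 := by
      intro h0; rw [h0] at ha; simp at ha
    have h2 : chiC p a = 1 := by
      rw [h]; exact MulChar.one_apply (isUnit_iff_ne_zero.2 ha0)
    rw [chiC_apply, ha] at h2
    norm_num at h2
  have h2 : (chiC p).IsQuadratic := by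
    intro a
    rw [chiC_apply]
    rcases quadraticChar_isQuadratic (ZMod p) a with h | h | h <;> rw [h] <;> simp
  have h3 := gaussSum_sq h1 h2 (ZMod.isPrimitive_stdAddChar p)
  rw [← tau_eq, ZMod.card] at h3
  have h4 : ‖tau p ^ 2‖ = ‖chiC p (-1) * (p : ℂ)‖ := by rw [h3]
  rw [norm_pow, norm_mul] at h4
  have h5 : ‖chiC p (-1)‖ = 1 := by
    have : chiC p (-1) ^ 2 = 1 := by
      rw [← map_pow]; simp
    have h6 : ‖chiC p (-1)‖ ^ 2 = 1 := by rw [← norm_pow, this, norm_one]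
    nlinarith [norm_nonneg (chiC p (-1))]
  rw [h5, one_mul] at h4
  rw [h4]
  simp

end Pool.Agent.Lib_helper71.LegLevel
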