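import Pool.Agent.Lib_helper71.LegLevel.Prime
import Pool.Agent.Lib_helper71.LegLevel.Fourier
import Pool.Agent.Lib_helper96.Legendre

/-!
# The Legendre walk modulo `p` imitates the step walk of `q`
-/

namespace Pool.Agent.Lib_helper71.LegLevel

open Finset Pool.Agent.Lib_helper96.Legendre

/-- jump times -/
def tm (p q j : ℕ) : ℕ := p * j / q

section approx

variable (p q : ℕ) [Fact p.Prime] [Fact q.Prime]

/-- the difference of the two walks -/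
noncomputable def Hd (m : ℕ) : ℂ :=
  walk p id (fun j => lg p j) m - tau p / tau q * walk q (tm p q) (fun j => lg q j) m

lemma hat_sub_mul (K L : ℕ → ℂ) (c : ℂ) (z : ℤ) :
    hat p (fun m => K m - c * L m) z = hat p K z - c * hat p L z := by
  simp only [hat, mul_sum, ← sum_sub_distrib]
  refine sum_congr rfl fun m _ => ?_
  ring

lemma tm_le (j : ℕ) (hj : j ≤ q) : tm p q j ≤ p := by
  rw [tm]
  have hq : 0 < q := (Fact.out : q.Prime).pos
  calc p * j / q ≤ p * q / q := Nat.div_le_div_right (Nat.mul_le_mul_left _ hj)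
    _ = p := Nat.mul_div_cancel _ hq

lemma tm_err_aux (j : ℕ) :
    |((tm p q j : ℕ) : ℝ) / p - (j : ℝ) / q| ≤ 1 / p := by
  have hq : (0 : ℝ) < q := by exact_mod_cast (Fact.out : q.Prime).pos
  have hp : (0 : ℝ) < p := by exact_mod_cast (Fact.out : p.Prime).pos
  have h2 : ((tm p q j : ℕ) : ℝ) ≤ (p : ℝ) * j / q := by
    rw [tm]
    have := Nat.cast_div_le (α := ℝ) (m := p * j) (n := q)
    push_cast at this
    exact this
  have h3 : (p : ℝ) * j / q - 1 ≤ ((tm p q j : ℕ) : ℝ) := by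
    rw [tm]
    have h4 : p * j < q * (p * j / q + 1) := by
      have := Nat.lt_mul_div_succ (p * j) (Fact.out : q.Prime).pos
      exact this
    have h5 : (p : ℝ) * j < q * (((p * j / q : ℕ) : ℝ) + 1) := by exact_mod_cast h4
    rw [sub_le_iff_le_add, div_le_iff₀ hq]
    nlinarith
  have h6 : (j : ℝ) / q = ((p : ℝ) * j / q) / p := by field_simp
  rw [h6, div_sub_div_same, abs_div, abs_of_pos hp]
  refine div_le_div_of_nonneg_right ?_ hp.le
  rw [abs_le]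
  constructor <;> linarith

lemma tm_err (j : ℕ) (z : ℤ) :
    |((z * tm p q j : ℤ) : ℝ) / p - ((z * j : ℤ) : ℝ) / q| ≤ |(z : ℝ)| / p := by
  have h1 : ((z * tm p q j : ℤ) : ℝ) / p - ((z * j : ℤ) : ℝ) / q =
      (z : ℝ) * (((tm p q j : ℕ) : ℝ) / p - (j : ℝ) / q) := by
    push_cast; ring
  rw [h1, abs_mul]
  calc |(z : ℝ)| * |((tm p q j : ℕ) : ℝ) / p - (j : ℝ) / q| ≤ |(z : ℝ)| * (1 / p) :=
        mul_le_mul_of_nonneg_left (tm_err_aux p q j) (abs_nonneg _)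
    _ = |(z : ℝ)| / p := by ring

lemma lg_norm_le (z : ℤ) : ‖lg p z‖ ≤ 1 := by
  rw [lg]
  rcases quadraticChar_isQuadratic (ZMod p) (z : ZMod p) with h | h | h <;> rw [h] <;> simp

lemma hat_Hd (hp : p ≠ 2) (hq : q ≠ 2) (z : ℤ) :
    ‖(1 - E p z) * hat p (Hd p q) z‖ ≤ Real.sqrt p * ‖lg p z - lg q z‖ +
      Real.sqrt p / Real.sqrt q * (q * (2 * Real.pi * (|(z : ℝ)| / p))) := by
  have hp0 : p ≠ 0 := (Fact.out : p.Prime).ne_zero
  have htp : ‖tau p‖ = Real.sqrt p := by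
    rw [← norm_tau p hp, Real.sqrt_sq (norm_nonneg _)]
  have htq : ‖tau q‖ = Real.sqrt q := by
    rw [← norm_tau q hq, Real.sqrt_sq (norm_nonneg _)]
  have htq0 : tau q ≠ 0 := by
    intro h
    rw [h, norm_zero] at htq
    have : (0 : ℝ) < Real.sqrt q := Real.sqrt_pos.2 (by exact_mod_cast (Fact.out : q.Prime).pos)
    linarith
  have h1 := hat_walk p p hp0 id (fun j => lg p j) (fun j hj => hj.le) (sum_lg p hp) z
  have h2 := hat_walk p q hp0 (tm p q) (fun j => lg q j) (fun j hj => tm_le p q j hj.le)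
    (sum_lg q hq) z
  have h3 : (1 - E p z) * hat p (Hd p q) z =
      tau p * (lg p z - lg q z) - tau p / tau q *
        ∑ j ∈ range q, lg q j * (E p z ^ tm p q j - E q z ^ j) := by
    have h4 : hat p (Hd p q) z = hat p (walk p id (fun j => lg p j)) z -
        tau p / tau q * hat p (walk q (tm p q) (fun j => lg q j)) z := by
      rw [← hat_sub_mul]; rfl
    rw [h4, mul_sub, h1, mul_left_comm, h2]
    simp only [id]
    rw [sum_lg_E p hp z]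
    simp only [mul_sub, sum_sub_distrib]
    rw [sum_lg_E q hq z]
    field_simp
    ring
  rw [h3]
  refine (norm_sub_le _ _).trans ?_
  rw [norm_mul, norm_mul, norm_div, htp, htq]
  refine add_le_add le_rfl (mul_le_mul_of_nonneg_left ?_ (by positivity))
  refine (norm_sum_le _ _).trans ?_
  have h5 : ∀ j ∈ range q, ‖lg q j * (E p z ^ tm p q j - E q z ^ j)‖ ≤
      2 * Real.pi * (|(z : ℝ)| / p) := by
    intro j _
    rw [norm_mul]
    have h6 : ‖E p z ^ tm p q j - E q z ^ j‖ ≤ 2 * Real.pi * (|(z : ℝ)| / p) := by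
      rw [E_pow, E_pow]
      refine (E_sub_E _ _ _ _).trans ?_
      exact mul_le_mul_of_nonneg_left (tm_err p q j z) (by positivity)
    calc ‖lg q j‖ * ‖E p z ^ tm p q j - E q z ^ j‖ ≤ 1 * ‖E p z ^ tm p q j - E q z ^ j‖ :=
          mul_le_mul_of_nonneg_right (lg_norm_le q _) (norm_nonneg _)
      _ ≤ _ := by rw [one_mul]; exact h6
  refine (sum_le_sum h5).trans ?_
  rw [sum_const, card_range, nsmul_eq_mul]

/-- the discrepancy weight -/
noncomputable def Dw (q y k : ℕ) : ℝ := (if q ∣ k then 1 else 0) + (if y < k then 4 else 0)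

lemma hat_Hd_sq (hp : p ≠ 2) (hq : q ≠ 2) (y : ℕ)
    (him : ∀ z : ℤ, z.natAbs ≤ y → ¬ (q : ℤ) ∣ z →
      quadraticChar (ZMod p) (z : ZMod p) = quadraticChar (ZMod q) (z : ZMod q))
    (z : ℤ) (hz0 : z ≠ 0) (hz : 2 * z.natAbs ≤ p) :
    ‖hat p (Hd p q) z‖ ^ 2 ≤ (p : ℝ) ^ 3 / 8 * (Dw q y z.natAbs * ((z.natAbs : ℝ) ^ 2)⁻¹) + 5 * p * q := by
  have hpp : (0 : ℝ) < p := by exact_mod_cast (Fact.out : p.Prime).pos
  have hqq : (0 : ℝ) < q := by exact_mod_cast (Fact.out : q.Prime).pos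
  set k : ℝ := (z.natAbs : ℝ) with hk
  have hk0 : 0 < k := by
    rw [hk]; exact_mod_cast Int.natAbs_pos.2 hz0
  have habs : |(z : ℝ)| = k := by
    rw [hk, Nat.cast_natAbs]; push_cast; rfl
  have h1 := hat_Hd p q hp hq z
  rw [norm_mul, habs] at h1
  have h2 := one_sub_E p (Fact.out : p.Prime).pos z hz
  rw [← hk] at h2
  set d : ℝ := ‖lg p z - lg q z‖ with hd
  have hd0 : 0 ≤ d := norm_nonneg _
  -- the discrepancy
  have hdd : d ^ 2 ≤ Dw q y z.natAbs := by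
    rw [Dw]
    by_cases hy : y < z.natAbs
    · rw [if_pos hy]
      have h3 : d ≤ 2 := by
        rw [hd]
        refine (norm_sub_le _ _).trans ?_
        have := lg_norm_le p z
        have := lg_norm_le q z
        linarith
      have : (0 : ℝ) ≤ if q ∣ z.natAbs then 1 else 0 := by split_ifs <;> norm_num
      nlinarith
    · rw [if_neg hy, add_zero]
      by_cases hqz : q ∣ z.natAbs
      · rw [if_pos hqz]
        have h3 : lg q z = 0 := by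
          rw [lg, (ZMod.intCast_zmod_eq_zero_iff_dvd z q).2 (Int.natCast_dvd.2 hqz)]
          simp
        have h4 : d ≤ 1 := by
          rw [hd, h3, sub_zero]; exact lg_norm_le p z
        nlinarith
      · rw [if_neg hqz]
        have h3 := him z (by omega) (fun h => hqz (Int.natCast_dvd.1 h))
        have h4 : d = 0 := by
          rw [hd, lg, lg, h3, sub_self, norm_zero]
        rw [h4]; norm_num
  have h5 : 4 * k / p * ‖hat p (Hd p q) z‖ ≤ Real.sqrt p * d +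
      Real.sqrt p / Real.sqrt q * (q * (2 * Real.pi * (k / p))) :=
    (mul_le_mul_of_nonneg_right h2 (norm_nonneg _)).trans h1
  have hsp : Real.sqrt p ^ 2 = p := Real.sq_sqrt hpp.le
  have hsq : Real.sqrt q ^ 2 = q := Real.sq_sqrt hqq.le
  have hsp0 : 0 < Real.sqrt p := Real.sqrt_pos.2 hpp
  have hsq0 : 0 < Real.sqrt q := Real.sqrt_pos.2 hqq
  have h6 : Real.sqrt p / Real.sqrt q * (q * (2 * Real.pi * (k / p))) =
      4 * k / p * (Real.pi / 2 * (Real.sqrt p * Real.sqrt q)) := by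
    have : (q : ℝ) / Real.sqrt q = Real.sqrt q := by
      rw [div_eq_iff hsq0.ne', ← sq, hsq]
    calc Real.sqrt p / Real.sqrt q * (q * (2 * Real.pi * (k / p))) =
        Real.sqrt p * (q / Real.sqrt q) * (2 * Real.pi * (k / p)) := by ring
      _ = Real.sqrt p * Real.sqrt q * (2 * Real.pi * (k / p)) := by rw [this]
      _ = 4 * k / p * (Real.pi / 2 * (Real.sqrt p * Real.sqrt q)) := by ring
  have h7 : ‖hat p (Hd p q) z‖ ≤ Real.sqrt p * d * (p / (4 * k)) +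
      Real.pi / 2 * (Real.sqrt p * Real.sqrt q) := by
    rw [h6] at h5
    have hc : 0 < 4 * k / p := by positivity
    have h8 : Real.sqrt p * d = 4 * k / p * (Real.sqrt p * d * (p / (4 * k))) := by
      field_simp
    rw [h8, ← mul_add] at h5
    exact le_of_mul_le_mul_left h5 hc
  have h9 : ‖hat p (Hd p q) z‖ ^ 2 ≤ 2 * (Real.sqrt p * d * (p / (4 * k))) ^ 2 +
      2 * (Real.pi / 2 * (Real.sqrt p * Real.sqrt q)) ^ 2 := by
    have h10 : ‖hat p (Hd p q) z‖ ^ 2 ≤ (Real.sqrt p * d * (p / (4 * k)) +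
      Real.pi / 2 * (Real.sqrt p * Real.sqrt q)) ^ 2 :=
      pow_le_pow_left₀ (norm_nonneg _) h7 2
    nlinarith [sq_nonneg (Real.sqrt p * d * (p / (4 * k)) -
      Real.pi / 2 * (Real.sqrt p * Real.sqrt q))]
  have h11 : (Real.sqrt p * d * (p / (4 * k))) ^ 2 = (p : ℝ) ^ 3 / 16 * (d ^ 2 * (k ^ 2)⁻¹) := by
    have : (Real.sqrt p * d * (p / (4 * k))) ^ 2 = Real.sqrt p ^ 2 * d ^ 2 * (p / (4 * k)) ^ 2 := by ring
    rw [this, hsp]
    field_simp
    ring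
  have h12 : (Real.pi / 2 * (Real.sqrt p * Real.sqrt q)) ^ 2 = Real.pi ^ 2 / 4 * (p * q) := by
    have : (Real.pi / 2 * (Real.sqrt p * Real.sqrt q)) ^ 2 =
      Real.pi ^ 2 / 4 * (Real.sqrt p ^ 2 * Real.sqrt q ^ 2) := by ring
    rw [this, hsp, hsq]
  have hpi : Real.pi ^ 2 ≤ 10 := by
    have := Real.pi_lt_d2
    nlinarith [Real.pi_pos]
  rw [h11, h12] at h9
  have h13 : d ^ 2 * (k ^ 2)⁻¹ ≤ Dw q y z.natAbs * (k ^ 2)⁻¹ :=
    mul_le_mul_of_nonneg_right hdd (by positivity)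
  have h14 : (p : ℝ) ^ 3 / 16 * (d ^ 2 * (k ^ 2)⁻¹) ≤ (p : ℝ) ^ 3 / 16 * (Dw q y z.natAbs * (k ^ 2)⁻¹) :=
    mul_le_mul_of_nonneg_left h13 (by positivity)
  have h15 : Real.pi ^ 2 / 4 * ((p : ℝ) * q) ≤ 10 / 4 * (p * q) := by
    apply mul_le_mul_of_nonneg_right _ (by positivity)
    linarith
  linarith

/-- Parseval without the mean -/
lemma meanfree (K : ℕ → ℂ) :
    (p : ℝ) * ∑ m ∈ range p, ‖K m - (∑ i ∈ range p, K i) / p‖ ^ 2 = ∑ n ∈ Ico 1 p, ‖hat p K n‖ ^ 2 := by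
  have hp0 : 0 < p := (Fact.out : p.Prime).pos
  have hpc : (p : ℂ) ≠ 0 := by exact_mod_cast hp0.ne'
  set μ := (∑ i ∈ range p, K i) / p with hμ
  rw [← parseval p (fun m => K m - μ)]
  rw [Finset.range_eq_Ico, Finset.sum_eq_sum_Ico_succ_bot hp0]
  have h0 : hat p (fun m => K m - μ) ((0 : ℕ) : ℤ) = 0 := by
    rw [hat]
    have : ∀ m ∈ range p, (K m - μ) * E p ((0 : ℕ) : ℤ) ^ m = K m - μ := by
      intro m _
      have : E p ((0 : ℕ) : ℤ) = 1 := E_zero p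
      rw [this, one_pow, mul_one]
    rw [sum_congr rfl this, sum_sub_distrib, sum_const, card_range, nsmul_eq_mul, hμ]
    field_simp
    ring
  rw [h0, norm_zero]
  simp only [ne_eq, OfNat.ofNat_ne_zero, not_false_eq_true, zero_pow, zero_add]
  refine sum_congr rfl fun n hn => ?_
  have hn' := mem_Ico.1 hn
  have h1 : hat p (fun m => K m - μ) (n : ℤ) = hat p K n := by
    have h2 := hat_sub_mul p K (fun _ => 1) μ (n : ℤ)
    simp only [mul_one] at h2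
    rw [h2]
    have h3 : hat p (fun _ => 1) (n : ℤ) = 0 := by
      rw [hat]
      have h4 := orth p (n : ℤ)
      rw [if_neg (by
        intro h
        have := Int.le_of_dvd (by omega) h
        omega)] at h4
      rw [← h4]
      refine sum_congr rfl fun m _ => ?_
      rw [one_mul, E_pow, mul_comm]
    rw [h3, mul_zero, sub_zero]
  rw [h1]

lemma sum_sq_dvd (h : ℕ) :
    ∑ k ∈ Ico 1 (h + 1), (if q ∣ k then (1 : ℝ) else 0) * (((k : ℝ)) ^ 2)⁻¹ ≤ 2 / (q : ℝ) ^ 2 := by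
  have hq : 0 < q := (Fact.out : q.Prime).pos
  have hqr : (0 : ℝ) < q := by exact_mod_cast hq
  have h1 : ∑ k ∈ Ico 1 (h + 1), (if q ∣ k then (1 : ℝ) else 0) * (((k : ℝ)) ^ 2)⁻¹ =
      ∑ k ∈ (Ico 1 (h + 1)).filter (fun k => q ∣ k), (((k : ℝ)) ^ 2)⁻¹ := by
    rw [sum_filter]
    refine sum_congr rfl fun k _ => ?_
    split_ifs <;> simp
  rw [h1]
  have h2 : (Ico 1 (h + 1)).filter (fun k => q ∣ k) ⊆ (Ioo 0 (h + 1)).image (fun m => q * m) := by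
    intro k hk
    rw [mem_filter, mem_Ico] at hk
    obtain ⟨⟨hk1, hk2⟩, m, rfl⟩ := hk
    rw [mem_image]
    refine ⟨m, ?_, rfl⟩
    rw [mem_Ioo]
    refine ⟨?_, ?_⟩
    · rcases Nat.eq_zero_or_pos m with h | h
      · rw [h] at hk1; omega
      · exact h
    · calc m = 1 * m := (one_mul m).symm
        _ ≤ q * m := Nat.mul_le_mul_right m hq
        _ < h + 1 := hk2
  refine (sum_le_sum_of_subset_of_nonneg h2 (fun k _ _ => by positivity)).trans ?_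
  rw [sum_image (by intro a _ b _ hab; exact Nat.eq_of_mul_eq_mul_left hq hab)]
  have h3 : ∀ m ∈ Ioo 0 (h + 1), ((((q * m : ℕ)) : ℝ) ^ 2)⁻¹ = ((q : ℝ) ^ 2)⁻¹ * ((m : ℝ) ^ 2)⁻¹ := by
    intro m _
    push_cast
    rw [mul_pow, mul_inv]
  rw [sum_congr rfl h3, ← mul_sum]
  have h4 := sum_Ioo_inv_sq_le (α := ℝ) 0 (h + 1)
  have h5 : (2 : ℝ) / (((0 : ℕ) : ℝ) + 1) = 2 := by norm_num
  rw [h5] at h4
  calc ((q : ℝ) ^ 2)⁻¹ * ∑ i ∈ Ioo 0 (h + 1), ((i : ℝ) ^ 2)⁻¹ ≤ ((q : ℝ) ^ 2)⁻¹ * 2 :=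
        mul_le_mul_of_nonneg_left h4 (by positivity)
    _ = 2 / (q : ℝ) ^ 2 := by ring

lemma sum_sq_tail (h y : ℕ) :
    ∑ k ∈ Ico 1 (h + 1), (if y < k then (4 : ℝ) else 0) * (((k : ℝ)) ^ 2)⁻¹ ≤ 8 / ((y : ℝ) + 1) := by
  have h1 : ∑ k ∈ Ico 1 (h + 1), (if y < k then (4 : ℝ) else 0) * (((k : ℝ)) ^ 2)⁻¹ =
      ∑ k ∈ (Ico 1 (h + 1)).filter (fun k => y < k), 4 * (((k : ℝ)) ^ 2)⁻¹ := by
    rw [sum_filter]
    refine sum_congr rfl fun k _ => ?_
    split_ifs <;> simp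
  rw [h1, ← mul_sum]
  have h2 : (Ico 1 (h + 1)).filter (fun k => y < k) ⊆ Ioo y (h + 1) := by
    intro k hk
    rw [mem_filter, mem_Ico] at hk
    rw [mem_Ioo]
    omega
  have h3 := sum_le_sum_of_subset_of_nonneg (f := fun k : ℕ => ((k : ℝ) ^ 2)⁻¹) h2
    (fun k _ _ => by positivity)
  have h4 := sum_Ioo_inv_sq_le (α := ℝ) y (h + 1)
  calc 4 * ∑ i ∈ (Ico 1 (h + 1)).filter (fun k => y < k), ((i : ℝ) ^ 2)⁻¹ ≤ 4 * (2 / ((y : ℝ) + 1)) := by
        linarith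
    _ = 8 / ((y : ℝ) + 1) := by ring

/-- **Imitation.** -/
theorem imitation (hp : p ≠ 2) (hq : q ≠ 2) (y : ℕ) (hy : 8 * q ^ 2 ≤ y) (hpq : 20 * q ^ 3 ≤ p)
    (him : ∀ z : ℤ, z.natAbs ≤ y → ¬ (q : ℤ) ∣ z →
      quadraticChar (ZMod p) (z : ZMod p) = quadraticChar (ZMod q) (z : ZMod q)) :
    ∃ μ : ℂ, ∑ m ∈ range p, ‖Hd p q m - μ‖ ^ 2 ≤ (p : ℝ) ^ 2 / (q : ℝ) ^ 2 := by
  have hpp : (0 : ℝ) < p := by exact_mod_cast (Fact.out : p.Prime).pos
  have hqq : (0 : ℝ) < q := by exact_mod_cast (Fact.out : q.Prime).pos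
  refine ⟨(∑ i ∈ range p, Hd p q i) / p, ?_⟩
  have hmf := meanfree p (Hd p q)
  obtain ⟨h, hh⟩ := (Fact.out : p.Prime).odd_of_ne_two hp
  have hsplit : ∑ n ∈ Ico 1 p, ‖hat p (Hd p q) n‖ ^ 2 =
      ∑ k ∈ Ico 1 (h + 1), (‖hat p (Hd p q) (k : ℤ)‖ ^ 2 + ‖hat p (Hd p q) (-(k : ℤ))‖ ^ 2) := by
    rw [← Finset.sum_Ico_consecutive _ (show 1 ≤ h + 1 by omega) (show h + 1 ≤ p by omega),
      sum_add_distrib]
    congr 1
    have hr := Finset.sum_Ico_reflect (fun n : ℕ => ‖hat p (Hd p q) (n : ℤ)‖ ^ 2) 1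
      (m := h + 1) (n := p) (by omega)
    have e1 : p + 1 - (h + 1) = h + 1 := by omega
    have e2 : p + 1 - 1 = p := by omega
    rw [e1, e2] at hr
    rw [← hr]
    refine sum_congr rfl fun k hk => ?_
    have hk' := mem_Ico.1 hk
    have : ((p - k : ℕ) : ℤ) = -(k : ℤ) + p * 1 := by
      rw [Nat.cast_sub (by omega)]; ring
    rw [this, hat_periodic p (by omega)]
  have hb : ∀ k ∈ Ico 1 (h + 1), (‖hat p (Hd p q) (k : ℤ)‖ ^ 2 + ‖hat p (Hd p q) (-(k : ℤ))‖ ^ 2) ≤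
      (p : ℝ) ^ 3 / 4 * (Dw q y k * ((k : ℝ) ^ 2)⁻¹) + 10 * p * q := by
    intro k hk
    have hk' := mem_Ico.1 hk
    have h1 := hat_Hd_sq p q hp hq y him (k : ℤ) (by omega) (by simp; omega)
    have h2 := hat_Hd_sq p q hp hq y him (-(k : ℤ)) (by omega) (by simp; omega)
    simp only [Int.natAbs_natCast, Int.natAbs_neg] at h1 h2
    linarith
  have hsum := sum_le_sum hb
  rw [← hsplit, ← hmf] at hsum
  have hD : ∑ k ∈ Ico 1 (h + 1), ((p : ℝ) ^ 3 / 4 * (Dw q y k * ((k : ℝ) ^ 2)⁻¹) + 10 * p * q) ≤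
      (p : ℝ) ^ 3 / 4 * (2 / (q : ℝ) ^ 2 + 8 / ((y : ℝ) + 1)) + 5 * (p : ℝ) ^ 2 * q := by
    rw [sum_add_distrib, ← mul_sum, sum_const, nsmul_eq_mul, Nat.card_Ico]
    have h1 : ∑ k ∈ Ico 1 (h + 1), Dw q y k * ((k : ℝ) ^ 2)⁻¹ ≤ 2 / (q : ℝ) ^ 2 + 8 / ((y : ℝ) + 1) := by
      have : ∀ k ∈ Ico 1 (h + 1), Dw q y k * ((k : ℝ) ^ 2)⁻¹ =
          (if q ∣ k then (1 : ℝ) else 0) * (((k : ℝ)) ^ 2)⁻¹ +
          (if y < k then (4 : ℝ) else 0) * (((k : ℝ)) ^ 2)⁻¹ := by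
        intro k _
        rw [Dw]; ring
      rw [sum_congr rfl this, sum_add_distrib]
      exact add_le_add (sum_sq_dvd q h) (sum_sq_tail h y)
    have h2 : ((h + 1 - 1 : ℕ) : ℝ) * (10 * p * q) ≤ 5 * (p : ℝ) ^ 2 * q := by
      have e : ((h + 1 - 1 : ℕ) : ℝ) = h := by simp
      have e2 : (p : ℝ) = 2 * h + 1 := by exact_mod_cast hh
      rw [e]
      have : (h : ℝ) ≤ p / 2 := by linarith
      calc (h : ℝ) * (10 * p * q) ≤ p / 2 * (10 * p * q) :=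
            mul_le_mul_of_nonneg_right this (by positivity)
        _ = 5 * (p : ℝ) ^ 2 * q := by ring
    exact add_le_add (mul_le_mul_of_nonneg_left h1 (by positivity)) h2
  have hall := hsum.trans hD
  -- numerical simplification
  have hy' : 8 * (q : ℝ) ^ 2 ≤ (y : ℝ) + 1 := by
    have : (8 * (q : ℝ) ^ 2) ≤ y := by exact_mod_cast hy
    linarith
  have h8 : 8 / ((y : ℝ) + 1) ≤ 1 / (q : ℝ) ^ 2 := by
    rw [div_le_div_iff₀ (by positivity) (by positivity)]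
    linarith
  have hpq' : 20 * (q : ℝ) ^ 3 ≤ p := by exact_mod_cast hpq
  have h9 : 5 * (p : ℝ) ^ 2 * q ≤ (p : ℝ) ^ 3 / 4 * (1 / (q : ℝ) ^ 2) := by
    rw [mul_one_div, le_div_iff₀ (by positivity)]
    have : 5 * (p : ℝ) ^ 2 * q * (q : ℝ) ^ 2 = (p : ℝ) ^ 2 / 4 * (20 * (q : ℝ) ^ 3) := by ring
    rw [this]
    calc (p : ℝ) ^ 2 / 4 * (20 * (q : ℝ) ^ 3) ≤ (p : ℝ) ^ 2 / 4 * p :=
          mul_le_mul_of_nonneg_left hpq' (by positivity)
      _ = (p : ℝ) ^ 3 / 4 := by ring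
  have h10 : (p : ℝ) ^ 3 / 4 * (2 / (q : ℝ) ^ 2 + 8 / ((y : ℝ) + 1)) ≤
      (p : ℝ) ^ 3 / 4 * (2 / (q : ℝ) ^ 2 + 1 / (q : ℝ) ^ 2) :=
    mul_le_mul_of_nonneg_left (by linarith) (by positivity)
  have h11 : (p : ℝ) ^ 3 / 4 * (2 / (q : ℝ) ^ 2 + 1 / (q : ℝ) ^ 2) + (p : ℝ) ^ 3 / 4 * (1 / (q : ℝ) ^ 2) =
      p * ((p : ℝ) ^ 2 / (q : ℝ) ^ 2) := by
    field_simp
    ring
  have h12 : (p : ℝ) * ∑ m ∈ range p, ‖Hd p q m - (∑ i ∈ range p, Hd p q i) / p‖ ^ 2 ≤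
      p * ((p : ℝ) ^ 2 / (q : ℝ) ^ 2) := by linarith
  exact le_of_mul_le_mul_left h12 hpp

end approx

end Pool.Agent.Lib_helper71.LegLevel
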