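import Mathlib

/-!
# Primes `p` whose Legendre symbol imitates that of a given prime `q`
-/

namespace Pool.Agent.Lib_helper71.LegLevel

open Finset NumberTheorySymbols

lemma quadChar_eq_jacobi (p : ℕ) [Fact p.Prime] (a : ℤ) :
    quadraticChar (ZMod p) (a : ZMod p) = J(a | p) := by
  rw [← jacobiSym.legendreSym.to_jacobiSym]; rfl

lemma exists_imitator (q : ℕ) [hq : Fact q.Prime] (hq2 : q ≠ 2) (y N : ℕ) :
    ∃ p : ℕ, N < p ∧ ∃ hp : p.Prime, p ≠ 2 ∧
      (haveI := Fact.mk hp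
       ∀ z : ℤ, z.natAbs ≤ y → ¬ (q : ℤ) ∣ z →
        quadraticChar (ZMod p) (z : ZMod p) = quadraticChar (ZMod q) (z : ZMod q)) := by
  classical
  have hqo : Odd q := hq.out.odd_of_ne_two hq2
  set S : Finset ℕ := (range (y + 1)).filter (fun n => ¬ q ∣ n) with hS
  set Q : ℕ := 4 * ∏ n ∈ S, n with hQ
  have hpos : ∀ n ∈ S, n ≠ 0 := by
    intro n hn h0
    rw [hS, mem_filter] at hn
    exact hn.2 (by rw [h0]; exact dvd_zero q)
  have hQ0 : Q ≠ 0 := by
    rw [hQ]
    exact mul_ne_zero (by norm_num) (prod_ne_zero_iff.2 hpos)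
  have hcop : q.Coprime Q := by
    rw [hQ]
    refine Nat.Coprime.mul_right ?_ ?_
    · have h2 : Nat.Coprime q 2 := (Nat.coprime_primes hq.out Nat.prime_two).2 hq2
      have : (4 : ℕ) = 2 ^ 2 := by norm_num
      rw [this]
      exact h2.pow_right 2
    · refine Nat.Coprime.prod_right ?_
      intro n hn
      rw [hS, mem_filter] at hn
      exact (Nat.Prime.coprime_iff_not_dvd hq.out).2 hn.2
  obtain ⟨p, hpN, hpp, hmod⟩ := Nat.forall_exists_prime_gt_and_modEq (N + 2) hQ0 hcop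
  refine ⟨p, by omega, hpp, by omega, ?_⟩
  haveI := Fact.mk hpp
  have hpo : Odd p := hpp.odd_of_ne_two (by omega)
  intro z hz hqz
  rw [quadChar_eq_jacobi, quadChar_eq_jacobi, jacobiSym.mod_right z hpo, jacobiSym.mod_right z hqo]
  have hmem : z.natAbs ∈ S := by
    rw [hS, mem_filter, mem_range]
    refine ⟨by omega, ?_⟩
    intro h
    exact hqz (Int.natCast_dvd.2 h)
  have hd : 4 * z.natAbs ∣ Q := by
    rw [hQ]
    exact Nat.mul_dvd_mul_left 4 (dvd_prod_of_mem (fun n => n) hmem)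
  have : p % (4 * z.natAbs) = q % (4 * z.natAbs) := by
    exact (hmod.of_dvd hd)
  rw [this]

end Pool.Agent.Lib_helper71.LegLevel
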